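import Pool.Agent.Helper6.LPA.St

/-!
# Project LPA, module CHR: the choice of the parameters
-/

set_option autoImplicit false

namespace Pool.Agent.Helper63.LPA

open Finset Filter
open Pool.Agent.Helper6.LP Pool.Agent.Helper6.LPA
open Pool.Agent.Helper98.LM (QQ)

private lemma ev_log (c d : ℝ) (hc : 0 < c) (n : ℕ) :
    ∀ᶠ x : ℝ in atTop, d * Real.log x ^ n ≤ c * x ^ (1 / 2 : ℝ) := by
  have h := isLittleO_log_rpow_rpow_atTop (n : ℝ) (by norm_num : (0 : ℝ) < 1 / 2)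
  have hd : 0 < c / (|d| + 1) := by positivity
  have h1 := h.bound hd
  filter_upwards [h1, eventually_ge_atTop (1 : ℝ)] with x hx hx1
  have hl : 0 ≤ Real.log x := Real.log_nonneg hx1
  rw [Real.rpow_natCast, Real.norm_of_nonneg (pow_nonneg hl n),
    Real.norm_of_nonneg (by positivity)] at hx
  have h2 : d * Real.log x ^ n ≤ (|d| + 1) * Real.log x ^ n :=
    mul_le_mul_of_nonneg_right (by linarith [le_abs_self d]) (pow_nonneg hl n)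
  refine h2.trans ?_
  have h3 := mul_le_mul_of_nonneg_left hx (by positivity : (0 : ℝ) ≤ |d| + 1)
  refine h3.trans (le_of_eq ?_)
  field_simp


/-- polynomials are smaller than powers of two -/
private lemma ev_pow (p P D B : ℕ) : ∃ I₁ : ℕ, ∀ I : ℕ, I₁ ≤ I →
    (p + 400 * (P * (I ^ 3 + 1)) ^ 13 + D) ^ B ≤ 2 ^ I - 1 := by
  obtain ⟨E, hE⟩ : ∃ E : ℕ, E = p + 400 * (P * 2) ^ 13 + D := ⟨_, rfl⟩
  have h := tendsto_pow_const_div_const_pow_of_one_lt (39 * B) (by norm_num : (1 : ℝ) < 2)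
  have hpos : (0 : ℝ) < 1 / (2 * ((E : ℝ) ^ B + 1)) := by positivity
  have h1 := h.eventually_le_const hpos
  obtain ⟨I₁, hI₁⟩ := eventually_atTop.1 (h1.and (eventually_ge_atTop 1))
  refine ⟨I₁, fun I hI => ?_⟩
  obtain ⟨h2, h3⟩ := hI₁ I hI
  have h4 : p + 400 * (P * (I ^ 3 + 1)) ^ 13 + D ≤ E * I ^ 39 := by
    have a1 : 1 ≤ I ^ 39 := Nat.one_le_pow _ _ h3
    have a2 : I ^ 3 + 1 ≤ 2 * I ^ 3 := by have : 1 ≤ I ^ 3 := Nat.one_le_pow _ _ h3; omega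
    have a3 : 400 * (P * (I ^ 3 + 1)) ^ 13 ≤ 400 * (P * (2 * I ^ 3)) ^ 13 := by gcongr
    have a4 : 400 * (P * (2 * I ^ 3)) ^ 13 = 400 * (P * 2) ^ 13 * I ^ 39 := by ring
    have a5 : p ≤ p * I ^ 39 := Nat.le_mul_of_pos_right _ a1
    have a6 : D ≤ D * I ^ 39 := Nat.le_mul_of_pos_right _ a1
    calc p + 400 * (P * (I ^ 3 + 1)) ^ 13 + D
        ≤ p * I ^ 39 + 400 * (P * 2) ^ 13 * I ^ 39 + D * I ^ 39 := by
          rw [← a4]; exact Nat.add_le_add (Nat.add_le_add a5 a3) a6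
      _ = E * I ^ 39 := by rw [hE]; ring
  have h5 : (E * I ^ 39) ^ B ≤ 2 ^ I - 1 := by
    have h2I : (0 : ℝ) < 2 ^ I := by positivity
    rw [div_le_div_iff₀ h2I (by positivity)] at h2
    have h6 : 2 * ((E : ℝ) ^ B * (I : ℝ) ^ (39 * B)) ≤ 2 ^ I := by
      have : (0 : ℝ) ≤ (I : ℝ) ^ (39 * B) := by positivity
      nlinarith
    have h7 : 2 * (E ^ B * I ^ (39 * B)) ≤ 2 ^ I := by exact_mod_cast h6
    have h8 : (E * I ^ 39) ^ B = E ^ B * I ^ (39 * B) := by rw [mul_pow, ← pow_mul]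
    rw [h8]
    have h9 : 2 ≤ 2 ^ I := by
      calc 2 = 2 ^ 1 := by norm_num
        _ ≤ 2 ^ I := Nat.pow_le_pow_right (by norm_num) h3
    omega
  exact (Nat.pow_le_pow_left h4 B).trans h5

/-- the integral part of the root -/
private lemma root (B w : ℕ) (hB : 1 ≤ B) : ∃ z : ℕ, z ^ B ≤ w ∧ w < (z + 1) ^ B := by
  classical
  refine ⟨Nat.findGreatest (fun z => z ^ B ≤ w) w, ?_, ?_⟩
  · exact Nat.findGreatest_spec (P := fun z => z ^ B ≤ w) (Nat.zero_le w)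
      (by show 0 ^ B ≤ w; rw [zero_pow (by omega)]; exact Nat.zero_le w)
  · by_contra hcon
    push Not at hcon
    have h1 : Nat.findGreatest (fun z => z ^ B ≤ w) w + 1 ≤ w :=
      (Nat.le_self_pow (by omega) _).trans hcon
    have h2 := Nat.le_findGreatest (P := fun z => z ^ B ≤ w) h1 hcon
    omega

theorem hCHR (h : StCHU) (hW : StWTS) (hS : StSVQ) (hT : StTGO) (hV : StVLP) : StCHR := by
  obtain ⟨C', hC', HU⟩ := h
  obtain ⟨B₁, hB₁', HW⟩ := hW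
  obtain ⟨A, hA, HT⟩ := hT
  obtain ⟨c, hc, HV⟩ := hV
  have hC'0 : 0 < C' := by linarith
  have hB₁ : (0 : ℝ) ≤ B₁ := Nat.cast_nonneg _
  obtain ⟨δ, hδ⟩ : ∃ δ : ℝ, δ = 1 / (8 * (B₁ : ℝ) + 2) := ⟨_, rfl⟩
  have hδ0 : 0 < δ := by rw [hδ]; positivity
  have hδ1 : δ ≤ 1 := by
    rw [hδ, div_le_one (by positivity)]
    linarith
  have hδB₁ : δ * ((4 * B₁ + 1 : ℕ) : ℝ) ≤ 1 / 2 := by
    rw [hδ, div_mul_eq_mul_div, div_le_iff₀ (by positivity)]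
    push_cast
    linarith
  refine ⟨A, δ, hA, hδ0, hδ1, fun ε hε => ?_⟩
  obtain ⟨η, hηd⟩ : ∃ η : ℝ, η = min 1 (ε / (4 * C')) := ⟨_, rfl⟩
  have hη0 : 0 < η := by rw [hηd]; exact lt_min (by norm_num) (by positivity)
  have hη1 : η ≤ 1 := by rw [hηd]; exact min_le_left _ _
  have hηε : C' * η ≤ ε / 4 := by
    have h1 : η ≤ ε / (4 * C') := by rw [hηd]; exact min_le_right _ _
    calc C' * η ≤ C' * (ε / (4 * C')) := mul_le_mul_of_nonneg_left h1 hC'0.le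
      _ = ε / 4 := by field_simp
  obtain ⟨B, hB, HS⟩ := hS η 12 hη0
  have hB0 : (0 : ℝ) < B := by exact_mod_cast hB
  obtain ⟨q₂, hq₂, H2⟩ := HU η B B₁ hη0 hη1 hB HS
  obtain ⟨K, hK⟩ : ∃ K : ℝ, K = Real.exp A / c := ⟨_, rfl⟩
  have hK0 : 0 < K := by rw [hK]; have := Real.exp_pos A; positivity
  obtain ⟨C, hCd⟩ : ∃ C : ℝ, C = 4 * C' * (B : ℝ) ^ 15 * K / ε := ⟨_, rfl⟩
  have hC0 : 0 < C := by rw [hCd]; positivity
  refine ⟨C, hC0, max 32 q₂, le_max_left _ _, fun p P hp hP hl => ?_⟩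
  have hp32 : 32 ≤ p := (le_max_left _ _).trans hp
  obtain ⟨J₂, H2⟩ := H2 p P ((le_max_right _ _).trans hp) hP hl
  obtain ⟨I₀, HT⟩ := HT p P hp32 hP hl (C / 4) (by positivity)
  obtain ⟨I₁, HI₁⟩ := ev_pow p P ⌈(B : ℝ) ^ 12 / η⌉₊ B
  have ev1 := ev_log (ε / 4) (12 * K ^ 2) (by positivity) 4
  have ev2 := (tendsto_rpow_atTop hδ0).eventually_ge_atTop ((2 : ℝ) ^ (max (max I₀ 2) I₁ + 1))
  have ev3 := Real.tendsto_log_atTop.eventually_ge_atTop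
    (1 + 1 / K + ((J₂ : ℝ) + 1) / C + 2 / δ + (C + 1) / (δ / 2) ^ 3)
  obtain ⟨x₀, hx₀⟩ := eventually_atTop.1
    ((ev1.and (ev2.and ev3)).and (eventually_ge_atTop (1 : ℝ)))
  refine ⟨⌈x₀⌉₊, fun M I J a r hM hI1 hI2 hJ1 hJ2 hr1 hr2 => ?_⟩
  obtain ⟨⟨e1, e2, e3⟩, hM1⟩ := hx₀ (M : ℝ) (Nat.ceil_le.1 hM)
  obtain ⟨L, hLd⟩ : ∃ L : ℝ, L = Real.log M := ⟨_, rfl⟩
  rw [← hLd] at e1 e3 hJ1 hJ2
  have hM0 : (0 : ℝ) < M := by linarith
  have t1 : 0 < 1 / K := by positivity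
  have t2 : 0 ≤ ((J₂ : ℝ) + 1) / C := by positivity
  have t3 : 0 < 2 / δ := by positivity
  have t4 : 0 < (C + 1) / (δ / 2) ^ 3 := by positivity
  have hL1 : 1 ≤ L := by linarith
  have hL0 : 0 < L := by linarith
  have hLK : 1 ≤ K * L := by
    have : 1 / K ≤ L := by linarith
    rw [div_le_iff₀ hK0] at this
    linarith
  have hLJ : (J₂ : ℝ) + 1 ≤ C * L := by
    have : ((J₂ : ℝ) + 1) / C ≤ L := by linarith
    rw [div_le_iff₀ hC0] at this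
    linarith
  have hLδ : 2 ≤ δ * L := by
    have : 2 / δ ≤ L := by linarith
    rw [div_le_iff₀ hδ0] at this
    linarith
  have hLC : C + 1 ≤ (δ / 2) ^ 3 * L := by
    have : (C + 1) / (δ / 2) ^ 3 ≤ L := by linarith
    rw [div_le_iff₀ (by positivity)] at this
    linarith
  have hLL : L ≤ L ^ 2 := by nlinarith
  -- the size of I
  have hI3 : max (max I₀ 2) I₁ < I := by
    have h : (2 : ℝ) ^ (max (max I₀ 2) I₁ + 1) < 2 ^ (I + 1) := lt_of_le_of_lt e2 hI2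
    have h' : (2 : ℕ) ^ (max (max I₀ 2) I₁ + 1) < 2 ^ (I + 1) := by exact_mod_cast h
    have := (Nat.pow_lt_pow_iff_right (by norm_num : 1 < 2)).1 h'
    omega
  have hI0 : I₀ ≤ I := by
    have h4 := le_max_left (max I₀ 2) I₁
    have h5 := le_max_left I₀ 2
    omega
  have hI1' : I₁ ≤ I := (le_max_right _ _).trans hI3.le
  have hI2' : 3 ≤ I := by
    have h4 := le_max_left (max I₀ 2) I₁
    have h5 := le_max_right I₀ 2
    omega
  have hlog2 : 1 / 2 < Real.log 2 := by have := Real.log_two_gt_d9; linarith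
  have hlog2' : Real.log 2 < 1 := by have := Real.log_two_lt_d9; linarith
  have hlM : Real.log ((M : ℝ) ^ δ) = δ * L := by rw [Real.log_rpow hM0, hLd]
  have hIu : (I : ℝ) ≤ 2 * L := by
    have h := Real.log_le_log (by positivity) hI1
    rw [hlM, Real.log_pow] at h
    have h4 : δ * L ≤ 1 * L := mul_le_mul_of_nonneg_right hδ1 hL0.le
    have h5 : (I : ℝ) * (1 / 2) ≤ I * Real.log 2 :=
      mul_le_mul_of_nonneg_left hlog2.le (Nat.cast_nonneg _)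
    linarith
  have hIl : δ / 2 * L ≤ I := by
    have h := Real.log_le_log (by positivity) hI2.le
    rw [hlM, Real.log_pow] at h
    push_cast at h
    have h5 : ((I : ℝ) + 1) * Real.log 2 ≤ (I + 1) * 1 :=
      mul_le_mul_of_nonneg_left hlog2'.le (by positivity)
    linarith
  have hJ3 : C / 4 * (I : ℝ) ^ 2 ≤ J := by
    have h : (I : ℝ) ^ 2 ≤ (2 * L) ^ 2 := pow_le_pow_left₀ (Nat.cast_nonneg _) hIu 2
    have h' := mul_le_mul_of_nonneg_left h (by positivity : 0 ≤ C / 4)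
    linarith
  have hJ4 : J ≤ I ^ 3 := by
    have h : (δ / 2 * L) ^ 3 ≤ (I : ℝ) ^ 3 := pow_le_pow_left₀ (by positivity) hIl 3
    have h4 : (C + 1) * L ^ 2 ≤ (δ / 2) ^ 3 * L * L ^ 2 :=
      mul_le_mul_of_nonneg_right hLC (by positivity)
    have h5 : (δ / 2 * L) ^ 3 = (δ / 2) ^ 3 * L * L ^ 2 := by ring
    have h6 : (J : ℝ) ≤ (I : ℝ) ^ 3 := by nlinarith
    exact_mod_cast h6
  have hτJ := HT I J r hI0 hJ3 hJ4 hr1 hr2
  obtain ⟨w, hw⟩ : ∃ w : ℕ, w = 2 ^ I - 1 := ⟨_, rfl⟩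
  rw [← hw] at hτJ ⊢
  have h2I : 8 ≤ 2 ^ I := by
    calc 8 = 2 ^ 3 := by norm_num
      _ ≤ 2 ^ I := Nat.pow_le_pow_right (by norm_num) hI2'
  have hw3 : 3 ≤ w := by omega
  have hwle : (w : ℝ) ≤ (M : ℝ) ^ δ := by
    have : (w : ℝ) ≤ ((2 ^ I : ℕ) : ℝ) := by exact_mod_cast (by omega : w ≤ 2 ^ I)
    push_cast at this
    linarith
  have hwM : (w : ℝ) ≤ M := by
    refine hwle.trans ?_
    calc (M : ℝ) ^ δ ≤ (M : ℝ) ^ (1 : ℝ) := Real.rpow_le_rpow_of_exponent_le hM1 hδ1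
      _ = M := Real.rpow_one _
  have hwB : ∀ B : ℕ, δ * B ≤ 1 / 2 → (w : ℝ) ^ B ≤ (M : ℝ) ^ (1 / 2 : ℝ) := by
    intro B hB
    calc (w : ℝ) ^ B ≤ ((M : ℝ) ^ δ) ^ B := pow_le_pow_left₀ (Nat.cast_nonneg _) hwle B
      _ = (M : ℝ) ^ (δ * B) := by rw [← Real.rpow_natCast, ← Real.rpow_mul hM0.le]
      _ ≤ (M : ℝ) ^ (1 / 2 : ℝ) := Real.rpow_le_rpow_of_exponent_le hM1 hB
  have hw1 := hwB (4 * B₁ + 1) hδB₁
  obtain ⟨S, hS⟩ : ∃ S : ℝ, S = (M : ℝ) ^ (1 / 2 : ℝ) := ⟨_, rfl⟩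
  have hS0 : 0 < S := by rw [hS]; positivity
  have hSS : S * S = M := by
    rw [hS, ← Real.rpow_add (by linarith)]
    norm_num
  rw [← hS] at e1 hw1
  have hw3R : (3 : ℝ) ≤ w := by exact_mod_cast hw3
  have hwlog : 0 < Real.log w := Real.log_pos (by linarith)
  have hlogle : Real.log w ≤ L := by
    rw [hLd]
    exact Real.log_le_log (by linarith) hwM
  obtain ⟨Λ, hΛd⟩ : ∃ Λ : ℝ, Λ = K * L ^ 2 := ⟨_, rfl⟩
  have hΛ1 : 1 ≤ Λ := by
    rw [hΛd]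
    have : K * L ≤ K * L ^ 2 := mul_le_mul_of_nonneg_left hLL hK0.le
    linarith
  have hTV : ∀ j ∈ TT A p w P r J, 1 ≤ Λ * VV p w P a (r + P * j) := by
    intro j hj
    unfold TT at hj
    rw [mem_filter] at hj
    obtain ⟨-, hj6, hjA⟩ := hj
    have h := HV p w P a (r + P * j) (by omega) hw3 hl (by omega)
    have h4 : c * Real.exp (-A) / Real.log w ^ 2 ≤ VV p w P a (r + P * j) := by
      refine le_trans ?_ h
      gcongr
    have h5 : c * Real.exp (-A) / L ^ 2 ≤ c * Real.exp (-A) / Real.log w ^ 2 := by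
      gcongr
    have h6 : Λ * (c * Real.exp (-A) / L ^ 2) = 1 := by
      rw [hΛd, hK, Real.exp_neg]
      have := (Real.exp_pos A).ne'
      field_simp
    calc (1 : ℝ) = Λ * (c * Real.exp (-A) / L ^ 2) := h6.symm
      _ ≤ Λ * VV p w P a (r + P * j) :=
        mul_le_mul_of_nonneg_left (h5.trans h4) (by linarith)
  have hJ₂ : J₂ ≤ J := by
    have h : C * L ≤ C * L ^ 2 := mul_le_mul_of_nonneg_left hLL hC0.le
    exact_mod_cast (by linarith : (J₂ : ℝ) ≤ J)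
  have hJ1' : 1 ≤ J := by
    have h : C * L ≤ C * L ^ 2 := mul_le_mul_of_nonneg_left hLL hC0.le
    have h4 : (0 : ℝ) ≤ J₂ := Nat.cast_nonneg _
    exact_mod_cast (by linarith : (1 : ℝ) ≤ J)
  -- the root
  obtain ⟨z, hz1, hz2⟩ := root B w hB
  have hX := HI₁ I hI1'
  rw [← hw] at hX
  have hzX : p + 400 * (P * (J + 1)) ^ 13 + ⌈(B : ℝ) ^ 12 / η⌉₊ ≤ z := by
    have h4 : p + 400 * (P * (J + 1)) ^ 13 + ⌈(B : ℝ) ^ 12 / η⌉₊ ≤
        p + 400 * (P * (I ^ 3 + 1)) ^ 13 + ⌈(B : ℝ) ^ 12 / η⌉₊ := by gcongr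
    refine h4.trans ?_
    have h5 := lt_of_le_of_lt hX hz2
    have h6 := lt_of_pow_lt_pow_left₀ B (Nat.zero_le _) h5
    omega
  have hBz : (B : ℝ) ^ 12 ≤ η * z := by
    have h4 : (B : ℝ) ^ 12 / η ≤ ⌈(B : ℝ) ^ 12 / η⌉₊ := Nat.le_ceil _
    have h5 : ((⌈(B : ℝ) ^ 12 / η⌉₊ : ℕ) : ℝ) ≤ (z : ℝ) := by exact_mod_cast (by omega : ⌈(B : ℝ) ^ 12 / η⌉₊ ≤ z)
    have h6 := h4.trans h5
    rw [div_le_iff₀ hη0] at h6
    linarith
  obtain ⟨F, hF⟩ := HW w (by omega) (QQ z w) (by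
    intro l hl'
    unfold QQ at hl'
    simp only [mem_filter, mem_Ioc] at hl'
    constructor
    · tauto
    · omega)
  have hU := H2 A Λ J a r z w M F hJ₂ hJ1' hr1 hr2 (by omega) (by omega) hBz hz1 hz2 hF hΛ1 hTV hτJ
  refine hU.trans ?_
  have hJ0 : (0 : ℝ) < J := by exact_mod_cast hJ1'
  have u1 : C' * η * M ≤ ε / 4 * M := mul_le_mul_of_nonneg_right hηε hM0.le
  have u2 : C' * (B : ℝ) ^ 15 * (M * Λ / J) ≤ ε / 4 * M := by
    have h4 : C' * (B : ℝ) ^ 15 * Λ ≤ ε / 4 * J := by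
      have h5 : ε / 4 * (C * L ^ 2) ≤ ε / 4 * J := mul_le_mul_of_nonneg_left hJ1 (by positivity)
      refine le_trans (le_of_eq ?_) h5
      rw [hΛd, hCd]
      field_simp
    have h6 : C' * (B : ℝ) ^ 15 * (M * Λ / J) = C' * (B : ℝ) ^ 15 * Λ / J * M := by ring
    rw [h6]
    refine mul_le_mul_of_nonneg_right ?_ hM0.le
    rw [div_le_iff₀ hJ0]
    exact h4
  have u3 : 12 * (Λ ^ 2 * (w : ℝ) ^ (4 * B₁ + 1)) ≤ ε / 4 * M := by
    have h4 : 12 * (Λ ^ 2 * (w : ℝ) ^ (4 * B₁ + 1)) ≤ 12 * (Λ ^ 2 * S) := by gcongr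
    refine h4.trans ?_
    have h5 : 12 * (Λ ^ 2 * S) = 12 * K ^ 2 * L ^ 4 * S := by rw [hΛd]; ring
    rw [h5, ← hSS, ← mul_assoc]
    exact mul_le_mul_of_nonneg_right e1 hS0.le
  have u4 : 0 ≤ ε * M := by positivity
  linarith

end Pool.Agent.Helper63.LPA
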